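import Pool.Agent.MP_ed9623_an.H77.SpecX
import Pool.Agent.MP_ed9623_an.H97.En

/-! Uniqueness for the strictly hyperbolic trace equation. -/

open MeasureTheory Filter Topology Set
open scoped ContDiff

namespace Pool.Agent.MP_ed9623_an.H77

open H64

namespace EnH

/-- The bound for the energy on horizontal lines. -/
theorem slice {r b c : ℝ} {E A B : P → ℝ} (hr : 0 < r) (hb : 0 ≤ b) (hA : M2 A) (hB : M2 B)
    (h : ∀ᵐ p : P, p ∈ Qp 0 r → 0 ≤ E p ∧ E p ≤ b * A p ^ 2 + b * B p ^ 2)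
    (hs : ∀ᵐ s, s ∈ Ioo 0 r → slY (-r) r A s ≤ c * s ∧ slY (-r) r B s ≤ c * s) :
    ∀ᵐ s, s ∈ Ioo 0 r → ∫ y in Ioo (-r) r, E (y, s) ≤ (2 * b * c) * s := by
  filter_upwards [En.ae_lines h, hs, hA.int_prod.prod_left_ae, hB.int_prod.prod_left_ae]
    with s h1 h2 h4 h3 hs
  have hm : ∀ y ∈ Ioo (-r) r, ((y, s) : P) ∈ Qp 0 r := fun y hy => by
    rw [Qp_zero hr.le]
    exact ⟨hy, hs⟩
  have i1 : IntegrableOn (fun y : ℝ => b * A (y, s) ^ 2) (Ioo (-r) r) :=
    (h4.const_mul b).integrableOn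
  have i2 : IntegrableOn (fun y : ℝ => b * B (y, s) ^ 2) (Ioo (-r) r) :=
    (h3.const_mul b).integrableOn
  have k := (ae_restrict_iff' (μ := volume) (measurableSet_Ioo (a := -r) (b := r))).2
    (h1.mono fun y hy a => hy (hm y a))
  calc ∫ y in Ioo (-r) r, E (y, s) ≤ ∫ y in Ioo (-r) r, (b * A (y, s) ^ 2 + b * B (y, s) ^ 2) :=
        integral_mono_of_nonneg (k.mono fun y hy => hy.1) (Integrable.add i1 i2)
          (k.mono fun y hy => hy.2)
    _ = b * slY (-r) r A s + b * slY (-r) r B s := by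
        rw [integral_add i1 i2, integral_const_mul b, integral_const_mul b, slY, slY]
    _ ≤ (2 * b * c) * s := by
        nlinarith [mul_le_mul_of_nonneg_left (h2 hs).1 hb, mul_le_mul_of_nonneg_left (h2 hs).2 hb]

end EnH

open En

theorem rowEnH : OfEnH := by
  intro hP h2 r K κ K' k m ms n ns nY l lY A B AY AS BY hr hc hA hB hAY hAS hBY wAY wAS wBY wBS
    hpt hsl
  have hO := isOpen_Qp 0 r
  obtain ⟨a1, a2, a3, a4, a5, a6, a7⟩ := hc.m2
  have K0 := hc.K0
  have κ0 := hc.κ0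
  have bm : ∀ᵐ p : P, p ∈ Qp 0 r → |m p| ≤ K := hc.pt.mono fun p a hp => (a hp).1
  have bn : ∀ᵐ p : P, p ∈ Qp 0 r → |n p| ≤ K := hc.pt.mono fun p a hp => (a hp).2.1
  have bl : ∀ᵐ p : P, p ∈ Qp 0 r → |l p| ≤ K := hc.pt.mono fun p a hp => (a hp).2.2.1
  have bA : ∀ᵐ p : P, p ∈ Qp 0 r → |A p| ≤ K' := hpt.mono fun p a hp => (a hp).1
  have bB : ∀ᵐ p : P, p ∈ Qp 0 r → |B p| ≤ K' := hpt.mono fun p a hp => (a hp).2.1
  have sA := En.Bd.cut hO hA hAS wAS bA
  have sB := En.Bd.cut hO hB hAY wBS bB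
  have yA := En.Bd.cut hO hA hAY wAY bA
  have yB := En.Bd.cut hO hB hBY wBY bB
  have e1 := (En.Bd.cut hO a1 a2 hc.wm bm).mul hP hO (sA.mul hP hO sA)
  have e2 := (En.Bd.cut hO a3 a4 hc.wn bn).mul hP hO (sB.mul hP hO sB)
  have f1 := (En.Bd.cut hO a3 a5 hc.wy bn).mul hP hO (yA.mul hP hO yB)
  have f2 := (En.Bd.cut hO a6 a7 hc.wl bl).mul hP hO (yA.mul hP hO yA)
  have c0 : 0 ≤ 2 * K * |K'| := by positivity
  have pos : ∀ᵐ p : P, p ∈ Qp 0 r → 0 < m p ∧ 0 < n p := hc.pt.mono fun p a hp =>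
    ⟨κ0.trans_le (a hp).2.2.2.1, κ0.trans_le (a hp).2.2.2.2.1⟩
  obtain ⟨r₂, h0, hv⟩ := h2 r (K + 2 * K * |K'|) k _ _ _ _ hr
    (add_nonneg K0 c0) (e1.m.add e2.m) (e1.md.add e2.md) ((f1.m.sub f2.m).cmul 2)
    ((f1.md.sub f2.md).cmul 2) (e1.w.add e2.w e1.m e1.md e2.m e2.md)
    ((f1.w.sub f2.w f1.m f1.md f2.m f2.md).cmul 2) hc.ik hc.k0 (by
      filter_upwards [hc.pt, hpt, pos] with p a b c hp
      obtain ⟨u, v⟩ := (a hp).2.2.2.2.2 (A p) (B p)
      obtain ⟨c1, c2⟩ := c hp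
      have w := (b hp).2.2
      have z : 0 ≤ m p * A p ^ 2 + n p * B p ^ 2 := by positivity
      simp only [indicator_of_mem hp, ← sq]
      refine ⟨z, le_trans (le_of_eq ?_) u, ?_⟩
      · linear_combination 2 * A p * w
      · rw [abs_mul, abs_two, ← mul_assoc]
        exact v.trans (mul_le_mul_of_nonneg_right (div_le_div_of_nonneg_right
          (le_add_of_nonneg_right c0) (Real.sqrt_nonneg _)) z)) (by
      have := EnH.slice (c := |K'|) (E := fun p => (Qp 0 r).indicator m p *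
        ((Qp 0 r).indicator A p * (Qp 0 r).indicator A p) + (Qp 0 r).indicator n p *
        ((Qp 0 r).indicator B p * (Qp 0 r).indicator B p)) hr K0 hA hB (by
          filter_upwards [hc.pt, pos] with p a c hp
          obtain ⟨c1, c2⟩ := c hp
          simp only [indicator_of_mem hp, ← sq]
          exact ⟨by positivity, add_le_add (mul_le_mul_of_nonneg_right
            ((le_abs_self _).trans (a hp).1) (sq_nonneg _)) (mul_le_mul_of_nonneg_right
            ((le_abs_self _).trans (a hp).2.1) (sq_nonneg _))⟩)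
        (hsl.mono fun s a hs => ⟨(a hs).1.trans
          (mul_le_mul_of_nonneg_right (le_abs_self _) hs.1.le), (a hs).2.trans
          (mul_le_mul_of_nonneg_right (le_abs_self _) hs.1.le)⟩)
      filter_upwards [this] with s a hs
      exact (a hs).trans (mul_le_mul_of_nonneg_right (le_add_of_nonneg_left K0) hs.1.le))
  have key : ∀ᵐ p : P, p ∈ Qp 0 (min r₂ r) → A p = 0 ∧ B p = 0 := by
    filter_upwards [hv, pos] with p a b hp
    have h1 := Qp_mono (min_le_right r₂ r) hp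
    have h3 := a (Qp_mono (min_le_left r₂ r) hp)
    obtain ⟨c1, c2⟩ := b h1
    simp only [indicator_of_mem h1] at h3
    have u := mul_nonneg c1.le (mul_self_nonneg (A p))
    have v := mul_nonneg c2.le (mul_self_nonneg (B p))
    exact ⟨mul_self_eq_zero.1 ((mul_eq_zero.1 (by linarith : m p * (A p * A p) = 0)).resolve_left
        c1.ne'),
      mul_self_eq_zero.1 ((mul_eq_zero.1 (by linarith : n p * (B p * B p) = 0)).resolve_left
        c2.ne')⟩
  exact ⟨min r₂ r, lt_min h0 hr, key.mono fun p a hp => (a hp).1, key.mono fun p a hp => (a hp).2⟩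

end Pool.Agent.MP_ed9623_an.H77
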