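import Pool.Agent.MP_ed9623_an.H77.SpecX

/-! The identity theorem under factorial bounds. -/

open MeasureTheory Filter Topology Set
open scoped ContDiff

namespace Pool.Agent.MP_ed9623_an.H77

namespace Tay

variable {E : Type} [NormedAddCommGroup E] [NormedSpace ℝ E] {f : ℝ → E} {C M t₀ : ℝ}

theorem bound (hf : ContDiff ℝ ∞ f)
    (h : ∀ n t, ‖iteratedDeriv n f t‖ ≤ C * M ^ n * (n.factorial : ℝ))
    (h0 : ∀ n, iteratedDeriv n f t₀ = 0) (c : ℝ) (n : ℕ) : ∀ k, ∀ s ∈ Icc (0 : ℝ) 1,
    ‖iteratedDeriv k f (t₀ + s * c)‖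
      ≤ C * M ^ (k + n) * ((k + n).factorial : ℝ) * |c| ^ n / (n.factorial : ℝ) * s ^ n := by
  induction n with
  | zero => intro k s _; simpa using h k _
  | succ n ih =>
    intro k
    have d : ∀ s : ℝ, HasDerivAt (fun s => iteratedDeriv k f (t₀ + s * c))
        (c • iteratedDeriv (k + 1) f (t₀ + s * c)) s := fun s => by
      have a : HasDerivAt (iteratedDeriv k f) (iteratedDeriv (k + 1) f (t₀ + s * c))
          (t₀ + s * c) := by
        rw [iteratedDeriv_succ]
        exact (hf.differentiable_iteratedDeriv k (by exact_mod_cast ENat.natCast_lt_top k) _).hasDerivAt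
      exact a.scomp s (h := fun s => t₀ + s * c)
        (by simpa using ((hasDerivAt_id s).mul_const c).const_add t₀)
    refine image_norm_le_of_norm_deriv_right_le_deriv_boundary
      (fun s _ => (d s).continuousAt.continuousWithinAt) (fun s _ => (d s).hasDerivWithinAt)
      (by simp [h0]) (fun s => (hasDerivAt_pow (n + 1) s).const_mul _) fun s hs => ?_
    rw [norm_smul, Real.norm_eq_abs]
    refine (mul_le_mul_of_nonneg_left (ih (k + 1) s (Ico_subset_Icc_self hs)) (abs_nonneg c)).trans
      (le_of_eq ?_)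
    rw [show k + 1 + n = k + (n + 1) by ring, Nat.factorial_succ n, Nat.add_sub_cancel]
    push_cast
    field_simp
    ring

end Tay

theorem rowTay : OfTay := by
  intro E _ _ _ f C M hf h I hI hne hz t
  have h' : ∀ n t, ‖iteratedDeriv n f t‖ ≤ |C| * |M| ^ n * (n.factorial : ℝ) := fun n t =>
    (h n t).trans (mul_le_mul_of_nonneg_right (by
      rw [← abs_pow, ← abs_mul]; exact le_abs_self _) (Nat.cast_nonneg _))
  have loc : ∀ t₀ t, f =ᶠ[𝓝 t₀] 0 → t = t₀ → ∀ n, iteratedDeriv n f t = 0 := fun t₀ t e a n => by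
    rw [a, e.iteratedDeriv_eq n]
    exact iteratedDeriv_fun_const_zero
  have cl : IsClosed {t | ∀ n, iteratedDeriv n f t = 0} := by
    rw [ofPred_forall]
    exact isClosed_iInter fun n => isClosed_eq
      (hf.continuous_iteratedDeriv n (by exact_mod_cast le_top)) continuous_const
  have op : IsOpen {t | ∀ n, iteratedDeriv n f t = 0} := by
    refine Metric.isOpen_iff.2 fun t₀ h0 => ⟨1 / (|M| + 1), by positivity, fun s hs => ?_⟩
    refine loc s s (mem_of_superset (Metric.isOpen_ball.mem_nhds hs) fun y hy => ?_) rfl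
    have b : |M| * |y - t₀| < 1 := by
      rw [Metric.mem_ball, Real.dist_eq, lt_div_iff₀ (by positivity)] at hy
      nlinarith [abs_nonneg (y - t₀)]
    have l := (tendsto_pow_atTop_nhds_zero_of_lt_one (by positivity) b).const_mul |C|
    rw [mul_zero] at l
    refine norm_le_zero_iff.1 (ge_of_tendsto' l fun n => ?_)
    have := Tay.bound hf h' h0 (y - t₀) n 0 1 ⟨zero_le_one, le_rfl⟩
    rw [iteratedDeriv_zero, one_mul, add_sub_cancel, zero_add] at this
    refine this.trans (le_of_eq ?_)
    have : (n.factorial : ℝ) ≠ 0 := by positivity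
    rw [mul_pow, one_pow]
    field_simp
  obtain ⟨s, hs⟩ := hne
  have e := IsClopen.eq_univ ⟨cl, op⟩ ⟨s, loc s s (mem_of_superset (hI.mem_nhds hs) hz) rfl⟩
  simpa using (e ▸ mem_univ t : t ∈ {t | ∀ n, iteratedDeriv n f t = 0}) 0

end Pool.Agent.MP_ed9623_an.H77
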