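import Pool.Agent.MP_ed9623_an.H77.SpecW

/-! The cone argument for the energy inequality. -/

open MeasureTheory Filter Topology Set
open scoped ContDiff

namespace Pool.Agent.MP_ed9623_an.H77

open H64

namespace En2

/-- The cut-off adapted to the cone. -/
noncomputable def eta (r K : ℝ) (p : P) : ℝ :=
  Real.smoothTransition (r / 2 - p.1 - 2 * K * √p.2) *
    Real.smoothTransition (r / 2 + p.1 - 2 * K * √p.2)

theorem eta_nonneg (r K : ℝ) (p : P) : 0 ≤ eta r K p :=
  mul_nonneg (Real.smoothTransition.nonneg _) (Real.smoothTransition.nonneg _)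

theorem eta_le (r K : ℝ) (p : P) : eta r K p ≤ 1 :=
  mul_le_one₀ (Real.smoothTransition.le_one _) (Real.smoothTransition.nonneg _)
    (Real.smoothTransition.le_one _)

theorem eta_ct (r K : ℝ) : Continuous (eta r K) := by
  have := Real.smoothTransition.continuous
  unfold eta
  fun_prop

theorem eta_supp {r K : ℝ} (hK : 0 ≤ K) {p : P} (h : eta r K p ≠ 0) :
    p.1 ∈ Icc (-(r / 2)) (r / 2) := by
  have h0 : 0 ≤ 2 * K * √p.2 := by positivity
  obtain ⟨a, b⟩ := mul_ne_zero_iff.1 h
  constructor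
  · by_contra c
    exact b (Real.smoothTransition.zero_of_nonpos (by linarith [not_le.1 c]))
  · by_contra c
    exact a (Real.smoothTransition.zero_of_nonpos (by linarith [not_le.1 c]))

theorem eta_smAt (r K : ℝ) {p : P} (hp : 0 < p.2) : ContDiffAt ℝ ∞ (eta r K) p := by
  have hs : ContDiffAt ℝ ∞ (fun q : P => √q.2) p := contDiffAt_snd.sqrt hp.ne'
  exact (Real.smoothTransition.contDiffAt.comp p ((contDiffAt_const.sub contDiffAt_fst).sub
    (contDiffAt_const.mul hs))).mul (Real.smoothTransition.contDiffAt.comp p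
      ((contDiffAt_const.add contDiffAt_fst).sub (contDiffAt_const.mul hs)))

theorem test_eta {r K : ℝ} (hr : 0 < r) (hK : 0 ≤ K) {β : ℝ → ℝ} (h1 : ContDiff ℝ ∞ β)
    (h2 : HasCompactSupport β) (h3 : tsupport β ⊆ Ioo 0 r) :
    Test (Qp 0 r) fun p => eta r K p * β p.2 := by
  have hs : tsupport (fun p : P => eta r K p * β p.2) ⊆ Icc (-(r / 2)) (r / 2) ×ˢ tsupport β :=
    closure_minimal (fun p hp => ⟨eta_supp hK (mul_ne_zero_iff.1 hp).1,
      subset_tsupport β (mul_ne_zero_iff.1 hp).2⟩) (isClosed_Icc.prod (isClosed_tsupport β))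
  refine ⟨contDiff_iff_contDiffAt.2 fun p => ?_,
    (isCompact_Icc.prod h2).of_isClosed_subset (isClosed_tsupport _) hs, hs.trans fun p hp => ?_⟩
  · by_cases hp : 0 < p.2
    · exact (eta_smAt r K hp).mul (h1.comp contDiff_snd).contDiffAt
    · have : (fun p : P => eta r K p * β p.2) =ᶠ[𝓝 p] fun _ => 0 :=
        notMem_tsupport_iff_eventuallyEq.1 fun h => hp (h3 (hs h).2).1
      exact contDiffAt_const.congr_of_eventuallyEq this
  · rw [Qp_zero hr.le]
    exact ⟨⟨by linarith [hp.1.1], by linarith [hp.1.2]⟩, h3 hp.2⟩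

theorem hdS (x : ℝ) : HasDerivAt Real.smoothTransition (deriv Real.smoothTransition x) x :=
  ((Real.smoothTransition.contDiff (n := 1)).differentiable (by simp) x).hasDerivAt

theorem dS_nonneg (x : ℝ) : 0 ≤ deriv Real.smoothTransition x :=
  Real.smoothTransition.monotone.deriv_nonneg

/-- The derivatives of the test function. -/
theorem pd_eta (r K : ℝ) {β : ℝ → ℝ} (h1 : ContDiff ℝ ∞ β) {p : P} (hp : 0 < p.2) :
    ∃ A B : ℝ, 0 ≤ A ∧ 0 ≤ B ∧
      pd (ee 0) (fun p : P => eta r K p * β p.2) p = (B - A) * β p.2 ∧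
      pd (ee 1) (fun p : P => eta r K p * β p.2) p
        = -(K / √p.2) * (A + B) * β p.2 + eta r K p * deriv β p.2 := by
  have hd : DifferentiableAt ℝ (fun p : P => eta r K p * β p.2) p :=
    ((eta_smAt r K hp).mul (h1.comp contDiff_snd).contDiffAt).differentiableAt (by simp)
  set a := r / 2 - p.1 - 2 * K * √p.2 with ha
  set b := r / 2 + p.1 - 2 * K * √p.2 with hb
  refine ⟨deriv Real.smoothTransition a * Real.smoothTransition b,
    Real.smoothTransition a * deriv Real.smoothTransition b,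
    mul_nonneg (dS_nonneg _) (Real.smoothTransition.nonneg _),
    mul_nonneg (Real.smoothTransition.nonneg _) (dS_nonneg _), HD.pd_eq ?_ hd, HD.pd_eq ?_ hd⟩
  · have i1 : HasDerivAt (fun t : ℝ => r / 2 - (p.1 + t) - 2 * K * √p.2) (-1) 0 := by
      simpa using ((((hasDerivAt_id (0 : ℝ)).const_add p.1).const_sub (r / 2)).sub_const
        (2 * K * √p.2))
    have i2 : HasDerivAt (fun t : ℝ => r / 2 + (p.1 + t) - 2 * K * √p.2) 1 0 := by
      simpa using ((((hasDerivAt_id (0 : ℝ)).const_add p.1).const_add (r / 2)).sub_const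
        (2 * K * √p.2))
    have j1 := (hdS (r / 2 - (p.1 + 0) - 2 * K * √p.2)).comp (0 : ℝ) i1
    have j2 := (hdS (r / 2 + (p.1 + 0) - 2 * K * √p.2)).comp (0 : ℝ) i2
    have := (j1.mul j2).mul_const (β p.2)
    simp only [add_zero, ← ha, ← hb, Function.comp_def] at this
    unfold HD
    refine (this.congr_deriv (by ring)).congr_of_eventuallyEq (Eventually.of_forall fun t => ?_)
    simp [eta, ee]
  · have i0 : HasDerivAt (fun t : ℝ => √(p.2 + t)) (1 / (2 * √p.2)) 0 := by
      simpa using ((hasDerivAt_id (0 : ℝ)).const_add p.2).sqrt (by simpa using hp.ne')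
    have i1 := (i0.const_mul (2 * K)).const_sub (r / 2 - p.1)
    have i2 := (i0.const_mul (2 * K)).const_sub (r / 2 + p.1)
    have j1 := (hdS (r / 2 - p.1 - 2 * K * √(p.2 + 0))).comp (0 : ℝ) i1
    have j2 := (hdS (r / 2 + p.1 - 2 * K * √(p.2 + 0))).comp (0 : ℝ) i2
    have j3 := ((h1.differentiable (by simp) (p.2 + 0)).hasDerivAt).comp (0 : ℝ)
      ((hasDerivAt_id (0 : ℝ)).const_add p.2)
    have := (j1.mul j2).mul j3
    simp only [add_zero, ← ha, ← hb, Function.comp_def, Pi.mul_apply] at this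
    have hs : √p.2 ≠ 0 := (Real.sqrt_pos.2 hp).ne'
    unfold HD
    refine (this.congr_deriv ?_).congr_of_eventuallyEq (Eventually.of_forall fun t => ?_)
    · simp only [eta, ← ha, ← hb]
      field_simp
      ring
    · simp [eta, ee]

theorem box_eq (r d : ℝ) :
    (volume.restrict (Ioo (-r) r)).prod (volume.restrict (Ioo 0 d))
      = (volume : Measure P).restrict (Bx (-r) r 0 d) := by
  rw [Measure.prod_restrict]; rfl

theorem int_box {e : P → ℝ} (he : M2 e) (a b c d : ℝ) : IntegrableOn e (Bx a b c d) := by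
  refine (he.loc.integrableOn_isCompact (isCompact_Icc.prod isCompact_Icc :
    IsCompact (Icc a b ×ˢ Icc c d))).mono_set ?_
  exact prod_mono Ioo_subset_Icc_self Ioo_subset_Icc_self

/-- The weak inequality in the plane. -/
theorem weak {r K : ℝ} {e es Φ Φy : P → ℝ} (hr : 0 < r) (hK : 0 ≤ K) (he : M2 e) (hes : M2 es)
    (hΦ : M2 Φ) (hΦy : M2 Φy) (w1 : WD (Qp 0 r) (ee 1) e es) (w0 : WD (Qp 0 r) (ee 0) Φ Φy)
    (hp : ∀ᵐ p : P, p ∈ Qp 0 r → |Φ p| ≤ K / √p.2 * e p) {β : ℝ → ℝ} (h1 : ContDiff ℝ ∞ β)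
    (h2 : HasCompactSupport β) (h3 : tsupport β ⊆ Ioo 0 r) (h4 : ∀ s, 0 ≤ β s) :
    -∫ p, e p * (eta r K p * deriv β p.2) ≤ ∫ p, (es p - Φy p) * (eta r K p * β p.2) := by
  have t := test_eta hr hK h1 h2 h3
  have t' := test_eta hr hK (contDiff_infty_iff_deriv.1 h1).2 h2.deriv
    ((tsupport_deriv_subset (f := β)).trans h3)
  have a1 := w1 _ t
  have a0 := w0 _ t
  simp only [sub_mul]
  rw [integral_sub (hes.int_mul t.m2) (hΦy.int_mul t.m2)]
  have key : ∫ p, (e p * pd (ee 1) (fun p : P => eta r K p * β p.2) p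
      - Φ p * pd (ee 0) (fun p : P => eta r K p * β p.2) p)
        ≤ ∫ p, e p * (eta r K p * deriv β p.2) := by
    refine integral_mono_ae ((he.int_mul (t.pd _).m2).sub (hΦ.int_mul (t.pd _).m2))
      (he.int_mul t'.m2) ?_
    filter_upwards [hp] with p hp
    by_cases hq : p ∈ Qp 0 r
    · obtain ⟨A, B, hA, hB, e0, e1⟩ := pd_eta r K h1 (p := p) hq.2
      rw [e0, e1]
      have b1 := hp hq
      have b2 : -(Φ p * (B - A)) ≤ K / √p.2 * e p * (A + B) := by
        refine (neg_le_abs _).trans ?_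
        rw [abs_mul]
        exact mul_le_mul b1 (abs_le.2 ⟨by linarith, by linarith⟩) (abs_nonneg _)
          ((abs_nonneg _).trans b1)
      nlinarith [mul_le_mul_of_nonneg_right b2 (h4 p.2)]
    · rw [(t.pd _).off hq, (t.pd _).off hq, t'.off hq]
      simp
  rw [integral_sub (he.int_mul (t.pd _).m2) (hΦ.int_mul (t.pd _).m2)] at key
  linarith

end En2

open En2

theorem rowEn2 : OfEn2 := by
  intro hG r K k e es Φ Φy hr hK he hes hΦ hΦy w1 w0 ik k0 hp hs
  have hQ := Qp_zero hr.le
  have mQ : MeasurableSet (Qp 0 r) := (isOpen_Qp 0 r).measurableSet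
  set μ : Measure ℝ := volume.restrict (Ioo (-r) r) with hμ
  have ie : ∀ d, Integrable e (μ.prod (volume.restrict (Ioo 0 d))) := fun d => by
    rw [box_eq r]; exact int_box he _ _ _ _
  have iF : ∀ d, Integrable (fun p => e p * eta r K p) (μ.prod (volume.restrict (Ioo 0 d))) :=
    fun d => (ie d).mul_bdd (c := 1) (eta_ct r K).aestronglyMeasurable
      (Eventually.of_forall fun p => by
        rw [Real.norm_eq_abs, abs_of_nonneg (eta_nonneg r K p)]; exact eta_le r K p)
  have hp' : ∀ᵐ p ∂(μ.prod (volume.restrict (Ioo 0 r))),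
      0 ≤ e p ∧ es p - Φy p ≤ k p.2 * e p ∧ |Φ p| ≤ K / √p.2 * e p := by
    rw [box_eq r, ← hQ]
    exact (ae_restrict_iff' mQ).2 hp
  have e0 : ∀ᵐ s ∂(volume.restrict (Ioo 0 r)), ∀ᵐ y ∂μ, 0 ≤ e (y, s) :=
    (Measure.ae_ae_of_ae_prod ((Measure.measurePreserving_swap).quasiMeasurePreserving.ae
      (hp'.mono fun p h => h.1)))
  set E : ℝ → ℝ := fun s => ∫ y, e (y, s) * eta r K (y, s) ∂μ with hE
  have mE : AEStronglyMeasurable E (volume.restrict (Ioo 0 r)) :=
    (iF r).integral_prod_right.aestronglyMeasurable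
  have bE : ∀ᵐ s ∂(volume.restrict (Ioo 0 r)), 0 ≤ E s ∧ E s ≤ K * s := by
    filter_upwards [e0, (ie r).prod_left_ae, (ae_restrict_iff' measurableSet_Ioo).2 hs]
      with s a b c
    have n : 0 ≤ᵐ[μ] fun y => e (y, s) * eta r K (y, s) :=
      a.mono fun y hy => mul_nonneg hy (eta_nonneg _ _ _)
    refine ⟨integral_nonneg_of_ae n, (integral_mono_of_nonneg n b ?_).trans c⟩
    exact a.mono fun y hy => mul_le_of_le_one_right hy (eta_le _ _ _)
  obtain ⟨δ, hδ, hz⟩ := hG.2 r K E k hr mE ((ae_restrict_iff' measurableSet_Ioo).1 bE) ik k0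
    fun β h1 h2 h3 h4 => by
      have t := test_eta hr hK h1 h2 h3
      have h1' := (contDiff_infty_iff_deriv.1 h1).2
      have t' := test_eta hr hK h1' h2.deriv ((tsupport_deriv_subset (f := β)).trans h3)
      have w := weak hr hK he hes hΦ hΦy w1 w0 (hp.mono fun p a b => (a b).2.2) h1 h2 h3 h4
      obtain ⟨C, hC⟩ := h1.continuous.bounded_above_of_compact_support h2
      have l1 : ∫ p, e p * (eta r K p * deriv β p.2) = ∫ s in Ioo 0 r, E s * deriv β s := by
        rw [← setIntegral_eq_integral_of_forall_compl_eq_zero (s := Qp 0 r)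
          fun p hq => by rw [t'.off hq, mul_zero], hQ, ← box_eq r, integral_prod_symm]
        · simp only [hE, ← mul_assoc, integral_mul_const]
          rfl
        · rw [box_eq r]
          exact (he.int_mul t'.m2).integrableOn
      have mk : AEStronglyMeasurable (fun p : P => k p.2 * β p.2)
          (μ.prod (volume.restrict (Ioo 0 r))) :=
        (ik.aestronglyMeasurable.mul h1.continuous.aestronglyMeasurable).comp_snd
      have iG : Integrable (fun p : P => k p.2 * β p.2 * (e p * eta r K p))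
          (μ.prod (volume.restrict (Ioo 0 r))) := by
        refine (integrable_prod_iff' (mk.mul (iF r).aestronglyMeasurable)).2 ⟨?_, ?_⟩
        · filter_upwards [(iF r).prod_left_ae] with s a using a.const_mul (k s * β s)
        · have q : (fun s => k s * (β s * E s)) =ᵐ[volume.restrict (Ioo 0 r)]
              fun s => ∫ y, ‖k s * β s * (e (y, s) * eta r K (y, s))‖ ∂μ := by
            filter_upwards [e0] with s a
            rw [← mul_assoc, hE, ← integral_const_mul]
            refine integral_congr_ae (a.mono fun y hy => ?_)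
            exact (Real.norm_of_nonneg (mul_nonneg (mul_nonneg (k0 s) (h4 s))
              (mul_nonneg hy (eta_nonneg _ _ _)))).symm
          refine Integrable.congr (Integrable.mul_bdd (c := C * (K * r)) ik
            (h1.continuous.aestronglyMeasurable.mul mE) ?_) q
          filter_upwards [bE, ae_restrict_mem measurableSet_Ioo] with s a b
          rw [Pi.mul_apply, norm_mul, Real.norm_of_nonneg a.1]
          exact mul_le_mul (hC s) (a.2.trans (mul_le_mul_of_nonneg_left b.2.le hK)) a.1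
            ((norm_nonneg _).trans (hC s))
      have l2 : ∫ p, (es p - Φy p) * (eta r K p * β p.2) ≤ ∫ s in Ioo 0 r, k s * E s * β s := by
        have l3 : ∫ p, k p.2 * β p.2 * (e p * eta r K p) ∂(μ.prod (volume.restrict (Ioo 0 r)))
            = ∫ s in Ioo 0 r, k s * E s * β s := by
          rw [integral_prod_symm _ iG]
          refine integral_congr_ae (Eventually.of_forall fun s => ?_)
          simp only [hE, integral_const_mul]
          ring
        rw [← setIntegral_eq_integral_of_forall_compl_eq_zero (s := Qp 0 r)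
          fun p hq => by rw [t.off hq, mul_zero], hQ, ← box_eq r, ← l3]
        refine integral_mono_ae ?_ iG (hp'.mono fun p a => ?_)
        · rw [box_eq r]
          exact ((hes.sub hΦy).int_mul t.m2).integrableOn
        · have := mul_le_mul_of_nonneg_right a.2.1 (mul_nonneg (eta_nonneg r K p) (h4 p.2))
          simp only
          linarith
      linarith
  set ρ := r / (8 * (K + 1)) with hρ
  have ρ0 : 0 < ρ := by positivity
  set d := min (min δ (r / 4)) (ρ ^ 2) with hd
  have d0 : 0 < d := lt_min (lt_min hδ (by positivity)) (by positivity)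
  have d1 : d ≤ δ := (min_le_left _ _).trans (min_le_left _ _)
  have d2 : d ≤ r / 4 := (min_le_left _ _).trans (min_le_right _ _)
  have d3 : d ≤ ρ ^ 2 := min_le_right _ _
  have z : ∫ p, e p * eta r K p ∂(μ.prod (volume.restrict (Ioo 0 d))) = 0 := by
    rw [integral_prod_symm _ (iF d)]
    refine setIntegral_eq_zero_of_ae_eq_zero ?_
    filter_upwards [hz] with s a b using a ⟨b.1, b.2.trans_le d1⟩
  have sb : Bx (-r) r 0 d ⊆ Qp 0 r := by
    rw [hQ]
    exact fun p h => ⟨h.1, h.2.1, by linarith [h.2.2]⟩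
  have n : 0 ≤ᵐ[μ.prod (volume.restrict (Ioo 0 d))] fun p => e p * eta r K p := by
    rw [box_eq r]
    refine (ae_restrict_iff' (isOpen_Bx _ _ _ _).measurableSet).2 ?_
    filter_upwards [hp] with p a b using mul_nonneg (a (sb b)).1 (eta_nonneg _ _ _)
  have z' := (integral_eq_zero_iff_of_nonneg_ae n (iF d)).1 z
  rw [box_eq r] at z'
  refine ⟨d, d0, ?_⟩
  filter_upwards [(ae_restrict_iff' (isOpen_Bx _ _ _ _).measurableSet).1 z'] with p a b
  rw [Qp_zero d0.le, mem_Bx] at b
  have s1 : √p.2 ≤ ρ := Real.sqrt_le_iff.2 ⟨ρ0.le, by linarith [b.2.2]⟩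
  have s2 : 2 * K * ρ ≤ r / 4 := by
    rw [hρ, ← mul_div_assoc, div_le_div_iff₀ (by positivity) (by positivity)]
    nlinarith
  have s3 : 2 * K * √p.2 ≤ r / 4 := (mul_le_mul_of_nonneg_left s1 (by positivity)).trans s2
  have pos : 0 < eta r K p := mul_pos
    (Real.smoothTransition.pos_of_pos (by linarith [b.1.2]))
    (Real.smoothTransition.pos_of_pos (by linarith [b.1.1]))
  exact (mul_eq_zero.1 (a ⟨⟨by linarith [b.1.1], by linarith [b.1.2]⟩, b.2⟩)).resolve_right pos.ne'

end Pool.Agent.MP_ed9623_an.H77
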