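import Pool.Agent.MP_ed9623_an.H77.SpecZ

/-! A trajectory is a weak solution of the abstract equation. -/

open MeasureTheory Filter Topology Set
open scoped ContDiff InnerProductSpace

namespace Pool.Agent.MP_ed9623_an.H77

open H64

namespace Tr1

variable {Ω : Set P}

theorem m2_xt (hΩ : MeasurableSet Ω) (f : L2 Ω) : M2 (xt Ω f) :=
  (memLp_indicator_iff_restrict hΩ).2 (Lp.memLp f)

theorem dist_sq (hΩ : MeasurableSet Ω) {f : L2 Ω} {a w : L} {ψ : P → ℝ}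
    (ha : a =ᵐ[volume] xt Ω f) (hw : w =ᵐ[volume] ψ) (hψ : Test Ω ψ) :
    ‖a - w‖ ^ 2 = ∫ x in Ω, (f x - ψ x) ^ 2 := by
  rw [← nm_coe, nm_sq, ← integral_indicator hΩ]
  refine integral_congr_ae ?_
  filter_upwards [Lp.coeFn_sub a w, ha, hw] with x e1 e2 e3
  rw [e1, Pi.sub_apply, e2, e3]
  by_cases hx : x ∈ Ω
  · simp [xt, hx]
  · simp [xt, hx, hψ.off hx]

theorem mem_Vs (hΩ : MeasurableSet Ω) {u : Fin 2 → L2 Ω} {G : Fin 2 → Fin 2 → L2 Ω} {v : E6}
    (h1 : ∀ j, vl v j =ᵐ[volume] xt Ω (u j)) (h2 : ∀ j i, gj v j i =ᵐ[volume] xt Ω (G j i))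
    (h : InV Ω u G) : v ∈ Vs Ω := by
  refine Metric.mem_closure_iff.2 fun ε hε => ?_
  obtain ⟨φ, hφ, hb⟩ := h (ε ^ 2 / 6) (by positivity)
  obtain ⟨w, hw⟩ := exists_jet hφ.1
  refine ⟨w, ⟨φ, hφ, hw⟩, lt_of_pow_lt_pow_left₀ 2 hε.le ?_⟩
  rw [dist_eq_norm, PiLp.norm_sq_eq_of_L2]
  refine (Finset.sum_lt_sum_of_nonempty (g := fun _ => ε ^ 2 / 6) Finset.univ_nonempty
    fun ⟨j, o⟩ _ => ?_).trans_eq (by simp; ring)
  cases o with
  | none => exact (dist_sq hΩ (h1 j) (hw j).1 (hφ.1 j)).trans_lt (hb j).1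
  | some i => exact (dist_sq hΩ (h2 j i) ((hw j).2 i) ((hφ.1 j).pd _)).trans_lt ((hb j).2 i)

theorem eq_of_test {x y : VV Ω} (h : ∀ (φ : Fin 2 → P → ℝ) (ζ : VV Ω), Sole Ω φ → Jet φ ζ.1 →
    ⟪x, ζ⟫_ℝ = ⟪y, ζ⟫_ℝ) : x = y := by
  have a : ∀ v ∈ Vs Ω, ⟪(x - y).1, v⟫_ℝ = 0 := fun v hv =>
    closure_minimal (t := {v : E6 | ⟪(x - y).1, v⟫_ℝ = 0}) (fun v (hv : v ∈ V0 Ω) => by
      obtain ⟨φ, b, c⟩ := hv
      have := h φ ⟨v, (V0 Ω).le_topologicalClosure ⟨φ, b, c⟩⟩ b c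
      rw [← sub_eq_zero, ← inner_sub_left] at this
      exact this) (isClosed_eq (continuous_const.inner continuous_id) continuous_const) hv
  exact sub_eq_zero.1 (Subtype.ext (inner_self_eq_zero.1 (a _ (x - y).2)))

theorem int_xt (hΩ : MeasurableSet Ω) (f : L2 Ω) (φ : P → ℝ) :
    ∫ x, xt Ω f x * φ x = ∫ x in Ω, f x * φ x := by
  rw [← integral_indicator hΩ]
  refine integral_congr_ae (Eventually.of_forall fun x => ?_)
  by_cases hx : x ∈ Ω <;> simp [xt, hx]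

theorem rhs_eq (hΩ : MeasurableSet Ω) {g u : Fin 2 → L2 Ω} (p : L2 Ω) {φ : Fin 2 → P → ℝ}
    (hφ : Sole Ω φ) {v : E6} (hv : v ∈ Vs Ω) (h1 : ∀ j, vl v j =ᵐ[volume] xt Ω (u j)) :
    rhs Ω g u p φ = ip (fun j => xt Ω (g j)) φ - di (fun _ => 0) (gj v) φ
      + tl (fun _ => 0) (vl v) (vl v) φ := by
  have t := hφ.1
  have i1 : ∀ i j, Integrable fun x => vl v i x * pd (ee j) (pd (ee j) (φ i)) x := fun i j =>
    (m2_vl v i).int_mul (((t i).pd _).pd _).m2
  have i2 : ∀ i j, Integrable fun x => vl v j x * vl v i x * pd (ee j) (φ i) x := fun i j =>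
    ((m2_vl v j).int_mul ((m2_vl v i).tmul ((t i).pd (ee j)))).congr
      (Eventually.of_forall fun x => by ring)
  have i3 : ∀ i, Integrable fun x => xt Ω p x * pd (ee i) (φ i) x := fun i =>
    (m2_xt hΩ p).int_mul ((t i).pd _).m2
  have i4 : ∀ i, Integrable fun x => xt Ω (g i) x * φ i x := fun i =>
    (m2_xt hΩ (g i)).int_mul (t i).m2
  have w : ∀ i j, ∫ x, vl v i x * pd (ee j) (pd (ee j) (φ i)) x
      = -∫ x, gj v i j x * pd (ee j) (φ i) x := fun i j =>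
    ((H1O.zero_iff.1 ((Vs_le Ω hv).1.1 i)).2 j).2 _ ((t i).pd _).top
  have key : ∀ i, ∫ x in Ω, (u i x * ∑ j, pd (ee j) (pd (ee j) (φ i)) x
      + ∑ j, u i x * u j x * pd (ee j) (φ i) x + p x * pd (ee i) (φ i) x + g i x * φ i x)
      = (∑ j, -∫ x, gj v i j x * pd (ee j) (φ i) x)
        + (∑ j, ∫ x, vl v j x * vl v i x * pd (ee j) (φ i) x)
        + (∫ x, xt Ω p x * pd (ee i) (φ i) x) + ∫ x, xt Ω (g i) x * φ i x := fun i => by
    have j1 := integrable_finsetSum Finset.univ fun j _ => i1 i j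
    have j2 := integrable_finsetSum Finset.univ fun j _ => i2 i j
    simp only [← w]
    rw [← integral_finsetSum _ fun j _ => i1 i j, ← integral_finsetSum _ fun j _ => i2 i j,
      ← integral_add' j1 j2, ← integral_add' (j1.add j2) (i3 i),
      ← integral_add' ((j1.add j2).add (i3 i)) (i4 i), ← integral_indicator hΩ]
    refine integral_congr_ae ?_
    filter_upwards [ae_all_iff.2 h1] with x e
    simp only [e, Pi.add_apply]
    by_cases hx : x ∈ Ω
    · simp only [xt, indicator_of_mem hx, Fin.sum_univ_two]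
      ring
    · simp [xt, hx]
  have z : (∫ x, xt Ω p x * pd (ee 0) (φ 0) x) + ∫ x, xt Ω p x * pd (ee 1) (φ 1) x = 0 := by
    rw [← integral_add (i3 0) (i3 1)]
    refine (integral_congr_ae (Eventually.of_forall fun x => ?_)).trans (integral_zero _ _)
    have := hφ.2 x
    rw [Fin.sum_univ_two] at this
    rw [← mul_add, this, mul_zero]
  rw [rhs, Finset.sum_congr rfl fun i _ => key i]
  simp only [ip, di, tl, dd_zero, Fin.sum_univ_two]
  linarith

end Tr1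

open Tr1

theorem rowTr1 : OfTr1 := by
  intro Ω g S D u p hΩ hM hT
  have mΩ := hΩ.measurableSet
  obtain ⟨E, hE⟩ := exists_ext mΩ
  obtain ⟨G, hG, hV⟩ := hT.inV
  let jU : (Fin 2 → L2 Ω) →L[ℝ] E6 :=
    (PiLp.continuousLinearEquiv 2 ℝ fun _ : Ix => L).symm.toContinuousLinearMap ∘L
      ContinuousLinearMap.pi fun ix => ix.2.elim
        (E.toContinuousLinearMap ∘L ContinuousLinearMap.proj ix.1) fun _ => 0
  let jG : (Fin 2 → Fin 2 → L2 Ω) →L[ℝ] E6 :=
    (PiLp.continuousLinearEquiv 2 ℝ fun _ : Ix => L).symm.toContinuousLinearMap ∘L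
      ContinuousLinearMap.pi fun ix => ix.2.elim 0 fun i =>
        E.toContinuousLinearMap ∘L ContinuousLinearMap.proj i ∘L ContinuousLinearMap.proj ix.1
  have e1 : ∀ a b j, (jU a + jG b) (j, none) = E (a j) := fun a b j => add_zero _
  have e2 : ∀ a b j i, (jU a + jG b) (j, some i) = E (b j i) := fun a b j i => zero_add _
  let π : E6 →L[ℝ] VV Ω := (Vs Ω).orthogonalProjectionOnto
  have cu : ContinuousOn u (Ioi 0) := hT.cont.mono Ioi_subset_Ici_self
  have cz : ContinuousOn (fun t => vE (jU (u t))) (Ioi 0) :=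
    (vE ∘L jU).continuous.comp_continuousOn cu
  have lG : Loc2 (Ioi 0) G := fun s hs t _ =>
    (hG t).mono_measure (Measure.restrict_mono (Ioo_subset_Ioo_left (le_of_lt hs)) le_rfl)
  have lZ : Loc2 (Ioi 0) fun t => π (jU (u t) + jG (G t)) :=
    (((Loc2.of_cont (itv_Ioi 0) cu).clm jU).add (lG.clm jG)).clm π
  have hZ : ∀ᵐ t, t ∈ Ioi (0 : ℝ) → (π (jU (u t) + jG (G t))).1 = jU (u t) + jG (G t) := by
    filter_upwards [hV] with t a ht
    have := mem_Vs mΩ (v := jU (u t) + jG (G t)) (fun j => by rw [vl, e1]; exact hE _)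
      (fun j i => by rw [gj, e2]; exact hE _) (a ht)
    exact congrArg Subtype.val (Submodule.orthogonalProjectionOnto_mem_subspace_eq_self ⟨_, this⟩)
  have lift : ∀ᵐ t, t ∈ Ioi (0 : ℝ) → S.ι (π (jU (u t) + jG (G t))) = vE (jU (u t)) := by
    filter_upwards [hZ] with t a ht
    rw [hM.ι, a ht]
    exact PiLp.ext fun j => e1 _ _ j
  have lS : Loc2 (Ioi 0) fun t => S.G (π (jU (u t) + jG (G t))) :=
    ((Loc2.of_cont (itv_Ioi 0) continuousOn_const).sub (lZ.clm S.A)).sub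
      (S.loc2_B (itv_Ioi 0) cz cz lZ lZ lift lift)
  refine ⟨fun t => vE (jU (u t)), _, ⟨cz, lZ, lS, lift, fun s hs t ht => ?_⟩, fun t j => hE _⟩
  refine eq_of_test fun φ ζ hφ hζ => ?_
  have a : ∀ t, ⟪adj S.ι (vE (jU (u t))), ζ⟫_ℝ = ∑ i, ∫ x in Ω, u t i x * φ i x := fun t => by
    rw [adj_inner, hM.ι, PiLp.inner_apply]
    refine Finset.sum_congr rfl fun j _ => ?_
    rw [inner_L, ← int_xt mΩ]
    exact integral_congr_ae ((hE _).mul (hζ j).1)
  have b : ∀ᵐ r, r ∈ uIoc s t →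
      rhs Ω g (u r) (p r) φ = innerSL ℝ ζ (S.G (π (jU (u r) + jG (G r)))) := by
    filter_upwards [hZ] with r e hr
    have e' := e ((itv_Ioi 0).uIcc hs ht (uIoc_subset_uIcc hr))
    rw [innerSL_apply_apply, real_inner_comm, St.G, inner_sub_left, inner_sub_left, hM.γ, hM.A,
      hM.B, hζ.ip, hζ.dj, hζ.tj, sub_neg_eq_add]
    exact rhs_eq mΩ _ hφ (π _).2 fun j => by rw [e', vl, e1]; exact hE _
  have i := lS.ii hs ht
  rw [inner_sub_left, a, a, real_inner_comm, ← innerSL_apply_apply ℝ,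
    ← (innerSL ℝ ζ).intervalIntegral_comp_comm i, ← intervalIntegral.integral_congr_ae b]
  refine (intervalIntegral.integral_eq_sub_of_hasDerivAt
    (f := fun t => ∑ i, ∫ x in Ω, u t i x * φ i x)
    (fun r hr => hT.eq r ((itv_Ioi 0).uIcc hs ht hr) φ hφ.1) ?_).symm
  rw [intervalIntegrable_iff] at i ⊢
  exact ((innerSL ℝ ζ).integrable_comp i).congr
    ((ae_restrict_iff' measurableSet_uIoc).2 (b.mono fun r e hr => (e hr).symm))

end Pool.Agent.MP_ed9623_an.H77
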